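import Pool.Agent.Lib.MP_4b1228_nt.GS.Main2

/-!
The choice of the parameters, with the length of the range of the norms recorded.
-/

namespace Pool.Agent.Lib.MP_4b1228_nt.GM

open Finset Filter Topology Pool.Agent.Lib.MP_9d27bc_nt.C Pool.Agent.Lib.MP_4b1228_nt.GS
open scoped Classical

/-- The lower bound for the weight of the primes, with control of the parameters. -/
def MainSt3 (r θ : ℝ) : Prop :=
  ∃ (J₁ J₂ g₀ : ℕ) (c : ℝ), 0 < c ∧ 2 * g₀ < J₁ ∧ J₁ ≤ J₂ ∧ (g₀ : ℝ) ≤ r * J₁ ∧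
    (J₂ : ℝ) / 2 + 3 - g₀ ≤ θ * J₁ ∧
    ∀ᶠ y : ℝ in atTop, ∀ Z : ℕ, 1 ≤ Z → (Z : ℝ) ≤ y ^ g₀ → c ≤ ∑ π ∈ PP y J₁ (J₂ + 1), ww Z π

/-- The lower bound from a family of systems of weights. -/
theorem mainG3 (h1 : CoreG) (N g : ℕ) (hg : 0 < g) (hgN : g < N) (c CV : ℝ) (hc : 0 < c)
    (hCV : 0 < CV) (a b h₀ : ℕ) (s : ℕ → ℕ → Sv)
    (hs : ∀ h Δ, h₀ ≤ h → 1 ≤ h → Δ ≤ h → (s h Δ).Wt ∧ (s h Δ).τ = N * h ∧
      (s h Δ).J₁ = 2 * N * h ∧ (s h Δ).J₂ = 2 * N * h + Δ ∧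
      (∀ J j₀ J' R, 2 * N * h ≤ J → J ≤ 2 * N * h + Δ → 1 ≤ j₀ →
        (s h Δ).ls j₀ J' R J ≤ (1 - c) / J) ∧
      ∀ k R j₀ g₀ : ℕ, CV ≤ 2 ^ k → 1 ≤ j₀ → g₀ + (a * k + b) * j₀ + Δ + 2 ≤ g * h →
        (s h Δ).Vis (CV / 2 ^ k) R j₀ g₀ ∧ Asy (s h Δ).G j₀ g₀)
    (θ : ℝ) (hθ : 1 / 2 - (g : ℝ) / (2 * N) < θ) : MainSt3 ((g : ℝ) / (2 * N)) θ := by
  obtain ⟨c₁, C₁, hC₁, h1⟩ := h1
  have hN : 1 ≤ N := by omega
  have hN' : (1 : ℝ) ≤ N := by exact_mod_cast hN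
  set δ := θ - (1 / 2 - (g : ℝ) / (2 * N)) with hδ
  have hδ0 : 0 < δ := by linarith
  obtain ⟨K, hK1, hK⟩ : ∃ K : ℕ, 1 ≤ K ∧ 1 ≤ δ * K := by
    refine ⟨⌈1 / δ⌉₊ + 1, by omega, ?_⟩
    have := Nat.le_ceil (1 / δ)
    rw [div_le_iff₀ hδ0] at this
    push_cast
    nlinarith
  obtain ⟨k, hk⟩ := Main.ex_k (2 * N * K * a) (2 * N * K * (b + c₁ + 7) + 1)
    (32 * (C₁ * CV) / c + CV) (by positivity)
  obtain ⟨σ, hσ⟩ : ∃ σ : ℕ, σ = a * k + b + c₁ := ⟨_, rfl⟩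
  obtain ⟨R', hR'⟩ : ∃ R' : ℕ, R' = K * (σ + 7) := ⟨_, rfl⟩
  obtain ⟨R, hR⟩ : ∃ R : ℕ, R = 2 * N * R' + 1 := ⟨_, rfl⟩
  have hkR : 2 * N * K * a * k + (2 * N * K * (b + c₁ + 7) + 1) = R := by
    rw [hR, hR', hσ]; ring
  rw [hkR] at hk
  have hR1 : (1 : ℝ) ≤ R := by exact_mod_cast (by omega : 1 ≤ R)
  have hR2 : (1 : ℝ) ≤ (R : ℝ) ^ 2 := one_le_pow₀ hR1
  have hq1 : 0 ≤ 32 * (C₁ * CV) / c := by positivity
  have hka : 32 * (C₁ * CV) / c * (R : ℝ) ^ 2 ≤ 2 ^ k := by nlinarith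
  have hkb : CV ≤ 2 ^ k := by nlinarith
  obtain ⟨Δ, hΔ1, hΔ2⟩ : ∃ Δ : ℕ, R ≤ Δ ∧ 16 * C₁ * 2 ^ R * (R : ℝ) ^ 2 / c ≤ Δ := by
    refine ⟨⌈16 * C₁ * 2 ^ R * (R : ℝ) ^ 2 / c⌉₊ + R, by omega, ?_⟩
    push_cast
    linarith [Nat.le_ceil (16 * C₁ * 2 ^ R * (R : ℝ) ^ 2 / c)]
  obtain ⟨j₀, hj1, hj2, hj3, hj4⟩ : ∃ j₀ : ℕ, Δ + 2 * R + 1 ≤ j₀ ∧ h₀ ≤ j₀ ∧ 2 / c ≤ j₀ ∧
      64 * (C₁ * 2 ^ R) * ((Δ : ℝ) + 1) * R / c ≤ j₀ := by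
    refine ⟨Δ + 2 * R + 1 + h₀ + ⌈2 / c⌉₊ + ⌈64 * (C₁ * 2 ^ R) * ((Δ : ℝ) + 1) * R / c⌉₊,
      by omega, by omega, ?_, ?_⟩
    · exact (Nat.le_ceil _).trans (by exact_mod_cast (by omega))
    · exact (Nat.le_ceil _).trans (by exact_mod_cast (by omega))
  have hj0 : 1 ≤ j₀ := by omega
  have hj0' : (1 : ℝ) ≤ j₀ := by exact_mod_cast hj0
  have hRs : σ + 7 ≤ R' := by rw [hR']; exact Nat.le_mul_of_pos_left _ hK1
  obtain ⟨h, hh⟩ : ∃ h : ℕ, h = R' * j₀ := ⟨_, rfl⟩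
  have hsj : σ * j₀ + 7 * j₀ ≤ h := by rw [hh, ← add_mul]; exact Nat.mul_le_mul_right _ hRs
  have hjh : j₀ ≤ h := by omega
  have hgh : h ≤ g * h := Nat.le_mul_of_pos_left _ hg
  have hNh : g * h + h ≤ N * h := by
    have := Nat.mul_le_mul_right h (show g + 1 ≤ N from hgN)
    rwa [add_mul, one_mul] at this
  have hRj : R * j₀ = 2 * N * h + j₀ := by rw [hR, hh]; ring
  have hN2 : 2 * N * h = 2 * (N * h) := by ring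
  obtain ⟨g₀, hg₀⟩ : ∃ g₀ : ℕ, g₀ + (σ * j₀ + Δ + 2) = g * h :=
    ⟨g * h - (σ * j₀ + Δ + 2), by omega⟩
  obtain ⟨hW, eτ, eJ₁, eJ₂, hL, hV⟩ := hs h Δ (by omega) (by omega) (by omega)
  have hsa : (a * k + b) * j₀ ≤ σ * j₀ := Nat.mul_le_mul_right _ (by omega)
  have hsb : c₁ * j₀ ≤ σ * j₀ := Nat.mul_le_mul_right _ (by omega)
  obtain ⟨hV1, hV2⟩ := hV k R j₀ g₀ hkb hj0 (by omega)
  set p := s h Δ with hp
  set m : ℝ := ((Δ : ℝ) + 1) * (c / (2 * ((R : ℝ) * j₀))) with hm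
  have hm0 : 0 < m := by positivity
  have k1 := h1 p (CV / 2 ^ k) (m / 8) j₀ R g₀ hW (by positivity) (by positivity) hj0 (by omega)
    (by omega) (by omega) hV1 hV2
  have k4 := Main.low c hc (2 * N * h) Δ (R * j₀) (fun J => p.ls j₀ (p.J₂ + 1) R J)
    (hj3.trans (by exact_mod_cast (by omega))) (by omega)
    (fun J ha hb => hL J j₀ (p.J₂ + 1) R ha hb hj0)
  obtain ⟨C', hC'⟩ : ∃ C' : ℝ, C' = (R * j₀ * c) / (64 * ((Δ : ℝ) + 1) * R * R) := ⟨_, rfl⟩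
  have hC'0 : 0 < C' := by rw [hC']; positivity
  have hd : 64 * C' * ((Δ : ℝ) + 1) * R / c ≤ j₀ := by
    rw [hC']
    apply le_of_eq
    field_simp
  have hΔ1' : (R : ℝ) ≤ Δ := by exact_mod_cast hΔ1
  have hU : 0 < (2 : ℝ) ^ R / CV := by positivity
  obtain ⟨e1, e2, -⟩ := Main.errs c (C₁ * CV) C' R Δ j₀ (2 ^ k) (2 ^ R / CV) hc (by positivity)
    hC'0 hR1 (by linarith) (by positivity) hU hΔ1' hka
    (le_trans (le_of_eq (by field_simp)) hΔ2) hd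
  have e3 := Main2.err3 c C₁ R Δ j₀ (2 ^ R) hc hC₁ hR1 (by linarith) (by positivity) hΔ1' hj4
  refine ⟨p.J₁, p.J₂, g₀, m / 4, by positivity, by omega, by omega, ?_, ?_, ?_⟩
  · have x1 : (g₀ : ℝ) ≤ g * h := by exact_mod_cast (by omega : g₀ ≤ g * h)
    rw [eJ₁]
    refine x1.trans (le_of_eq ?_)
    push_cast
    field_simp
  · have x1 : (g₀ : ℝ) + (σ * j₀ + Δ + 2) = g * h := by exact_mod_cast hg₀
    have x2 : (Δ : ℝ) ≤ j₀ := by exact_mod_cast (by omega : Δ ≤ j₀)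
    have x3 : (h : ℝ) = K * (σ + 7) * j₀ := by rw [hh, hR']; push_cast; ring
    have x4 : θ * (2 * N * h) = δ * (2 * N) * h + N * h - g * h := by
      rw [hδ]; field_simp; ring
    have x5 : ((σ : ℝ) + 7) * j₀ ≤ δ * (2 * N) * h := by
      have x6 : (0 : ℝ) ≤ ((σ : ℝ) + 7) * j₀ := by positivity
      have x7 : 1 ≤ δ * K * (2 * N) := by nlinarith
      calc ((σ : ℝ) + 7) * j₀ = 1 * (((σ : ℝ) + 7) * j₀) := by ring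
        _ ≤ (δ * K * (2 * N)) * (((σ : ℝ) + 7) * j₀) := by gcongr
        _ = δ * (2 * N) * h := by rw [x3]; ring
    rw [eJ₁, eJ₂]
    push_cast
    rw [x4]
    nlinarith
  · filter_upwards [k1] with y a1 Z hZ hZy
    have b1 := a1 Z hZ hZy
    have y1 : (p.J₂ : ℝ) - p.J₁ = Δ := by rw [eJ₁, eJ₂]; push_cast; ring
    have y2 : (p.J₂ : ℝ) - 2 * p.τ = Δ := by rw [eτ, eJ₂]; push_cast; ring
    rw [y1, y2] at b1
    have k4' : m ≤ ∑ J ∈ Icc p.J₁ p.J₂, (1 / ((J : ℝ) + 1) - p.ls j₀ (p.J₂ + 1) R J) := by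
      rw [hm]
      have := k4
      push_cast at this
      rw [← eJ₂, ← eJ₁] at this
      exact this
    have f1 : C₁ * (CV / 2 ^ k) * R * ((Δ : ℝ) + R + 2) / j₀ =
        C₁ * CV * R * (Δ + R + 2) / (2 ^ k * j₀) := by field_simp
    have f2 : C₁ * CV * (2 ^ R / CV) * R / j₀ = C₁ * 2 ^ R * R / j₀ := by field_simp
    rw [f1] at b1
    rw [f2] at e2
    linarith

theorem main3 (h1 : CoreG) (h2 : VisSt) (h3 : AsySt) (h4 : Sign2St) (h5 : Cert2St) (θ : ℝ)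
    (hθ : 1 / 12 < θ) : MainSt3 (5 / 12) θ := by
  obtain ⟨q, hq, hlt, hτ, hg, c, hc, h5⟩ := h5
  obtain ⟨h₀, h5⟩ := eventually_atTop.1 h5
  obtain ⟨CV, hCV, h2⟩ := h2
  obtain ⟨c₁, h3⟩ := h3
  have hg0 : 0 < q.g := hq.1
  have x1 : (12 : ℝ) * q.g = 5 * (2 * q.τ) := by exact_mod_cast (by omega : 12 * q.g = 5 * (2 * q.τ))
  have x2 : (0 : ℝ) < q.τ := by exact_mod_cast (by omega : 0 < q.τ)
  have x3 : (q.g : ℝ) / (2 * q.τ) = 5 / 12 := by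
    rw [div_eq_iff (by positivity)]
    linarith
  rw [← x3]
  refine mainG3 h1 q.τ q.g hg0 (by omega) c CV hc hCV 320 (480 + c₁) h₀
    (fun h Δ => (q.sc h (q.J₁ * h + Δ)).sv) ?_ θ ?_
  · intro h Δ hh h1' hΔ
    have hJ : q.J₁ * h + Δ ≤ q.J₂ * h := by
      have := Nat.mul_le_mul_right h (show q.J₁ + 1 ≤ q.J₂ from hlt)
      rw [add_mul] at this
      omega
    have hok := Main2.sc_ok q hq h (q.J₁ * h + Δ) h1' (by omega) hJ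
    obtain ⟨w1, w2, -⟩ := h4 _ hok
    refine ⟨w1, rfl, by rw [hτ]; rfl, by rw [hτ]; rfl, ?_, ?_⟩
    · intro J j₀ J' R ha hb hj
      rw [hτ] at ha hb
      exact h5 h hh J _ j₀ J' R ha hb hJ hj
    · intro k R j₀ g₀ hk hj hg₀
      have e : (320 * k + (480 + c₁)) * j₀ = 80 * (4 * k + 6) * j₀ + c₁ * j₀ := by ring
      rw [e] at hg₀
      refine ⟨fun M hM hx => ?_, h3 _ j₀ g₀ hj (show _ ≤ q.g * h by omega)⟩
      have hM' : (q.sc h (q.J₁ * h + Δ)).yy M ≠ 0 := fun h0 => hM (by simp [Pq.sv, h0])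
      refine h2 k hk (q.g * h) _ _ R j₀ g₀ M hj hok.2.2.2.1 ?_ ?_ hx (w2 M hM')
      · have a := hok.2.1
        have b := hok.2.2.1
        simp only [Pq.sc, Pq.sv] at a b ⊢
        omega
      · simp only [Pq.sc, Pq.sv]
        omega
  · rw [x3]
    linarith

end Pool.Agent.Lib.MP_4b1228_nt.GM
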