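import Pool.Agent.Lib.MP_4b1228_nt.GM.Tail
import Pool.Agent.Lib.MP_4b1228_nt.GM.Main3

/-!
The expected order of the mass of the primes near the axis.
-/

namespace Pool.Agent.Lib.MP_4b1228_nt.GM

open Finset Topology Pool.Agent.Lib.MP_9d27bc_nt.C Pool.Agent.Lib.MP_4b1228_nt.GS
open Filter hiding ker
open Pool.Agent.Lib.MP_9d27bc_nt.C.Two hiding ww
open scoped Classical

/-- The theorem. -/
def FinSt3 (ε : ℝ) : Prop :=
  ∃ c : ℝ, 0 < c ∧ ∀ᶠ X : ℝ in atTop, ∀ α : ℝ, X ^ (ε - 5 / 12) ≤ α → α ≤ 1 →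
    c * α ≤ ∑ p ∈ (Ioc ⌊X⌋₊ ⌊X ^ (1 + ε)⌋₊).filter (fun p : ℕ => p.Prime ∧ ∃ q n b : ℕ, q.Prime ∧
      0 < b ∧ (b : ℝ) ≤ α * √(p : ℝ) ∧ ((1 < n ∧ p = (2 * q * n) ^ 2 + b ^ 2) ∨
        (1 ≤ n ∧ Even b ∧ p = ((2 * n + 1) * q) ^ 2 + b ^ 2))), 1 / (p : ℝ)

open End in
theorem fin3 (hX : Box) (hU : UBSt) (h2 : FamSt)
    (hm : ∀ θ : ℝ, 1 / 12 < θ → MainSt3 (5 / 12) θ) (ε : ℝ) (hε : 0 < ε) : FinSt3 ε := by
  obtain ⟨c₀, C, hC, hub⟩ := ub_PP hX hU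
  set δ : ℝ := min (ε / 2) (1 / (2 * c₀ + 1)) with hδ
  have hδ0 : 0 < δ := by positivity
  have hδ1 : δ ≤ ε / 2 := min_le_left _ _
  have hδ2 : δ * (2 * c₀ + 1) ≤ 1 := by
    have := min_le_right (ε / 2) (1 / (2 * (c₀ : ℝ) + 1))
    rwa [le_div_iff₀ (by positivity)] at this
  obtain ⟨J₁, J₂, g₀, c, hc, hJ, hJJ, hg, hth, hM⟩ := hm (1 / 12 + δ) (by linarith)
  have hJ1 : 1 ≤ J₁ := by omega
  have hJ1' : (1 : ℝ) ≤ J₁ := by exact_mod_cast hJ1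
  have hJJ' : (J₁ : ℝ) ≤ J₂ := by exact_mod_cast hJJ
  have e1 : (J₂ : ℝ) + 6 ≤ (1 + 2 * δ) * J₁ := by nlinarith
  have e2 : 3 ≤ δ * J₁ := by nlinarith
  have e3 : c₀ + 2 * g₀ ≤ J₁ := by
    have h0 : (0 : ℝ) ≤ c₀ := Nat.cast_nonneg _
    have : (c₀ : ℝ) + 2 * g₀ ≤ J₁ := by
      have a1 : (c₀ : ℝ) * 3 ≤ c₀ * (δ * J₁) := by gcongr
      have a2 : (δ * (2 * c₀ + 1)) * J₁ ≤ 1 * J₁ := by gcongr
      nlinarith
    exact_mod_cast this
  set B : ℝ := C * (1 + ((J₂ + 1 : ℕ) : ℝ)) with hB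
  have hB0 : 0 < B := by positivity
  obtain ⟨w, hw1, hw⟩ : ∃ w : ℕ, 1 ≤ w ∧ 68 * B / w ≤ c / 3 := by
    refine ⟨⌈204 * B / c⌉₊ + 1, by omega, ?_⟩
    have := Nat.le_ceil (204 * B / c)
    rw [div_le_iff₀ hc] at this
    rw [div_le_iff₀ (by positivity)]
    push_cast
    nlinarith
  have hw1' : (1 : ℝ) ≤ w := by exact_mod_cast hw1
  have hF := h2 J₁ (J₂ + 1) g₀ (c / 3) hJ (by positivity)
  have hU' := hub J₁ (J₂ + 1) g₀ e3 hJ1 (by omega)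
  refine ⟨c / (6 * (w + 1)), by positivity, ?_⟩
  have ht : Tendsto (fun X : ℝ => X ^ ((J₁ : ℝ)⁻¹)) atTop atTop :=
    tendsto_rpow_atTop (by positivity)
  filter_upwards [ht.eventually (((hM.and hF).and hU').and (eventually_ge_atTop ((w : ℝ) + 1))),
    eventually_ge_atTop (1 : ℝ)] with X hy hX1 α hα hα1
  obtain ⟨⟨⟨hM, hF⟩, hU'⟩, hyw⟩ := hy
  set y : ℝ := X ^ ((J₁ : ℝ)⁻¹) with hyd
  have hyX : y ^ J₁ = X := Real.rpow_inv_natCast_pow (by linarith) (by omega)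
  have hy1 : 1 < y := by linarith
  have hy0 : 0 ≤ y := by linarith
  have hXr : ∀ t : ℝ, X ^ t = y ^ (J₁ * t) := by
    intro t
    rw [Real.rpow_mul hy0, Real.rpow_natCast, hyX]
  have hα0 : 0 < α := lt_of_lt_of_le (Real.rpow_pos_of_pos (by linarith) _) hα
  set Z : ℕ := ⌈(w : ℝ) / α⌉₊ with hZd
  have hZ1 : (w : ℝ) / α ≤ Z := Nat.le_ceil _
  have hZ2 : (Z : ℝ) ≤ (w + 1) / α := by
    have a1 : (Z : ℝ) < w / α + 1 := Nat.ceil_lt_add_one (by positivity)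
    have a2 : 1 ≤ 1 / α := by rw [le_div_iff₀ hα0]; linarith
    rw [add_div]
    linarith
  have hZ : 1 ≤ Z := Nat.ceil_pos.2 (by positivity)
  have hZy : (Z : ℝ) ≤ y ^ g₀ := by
    refine hZ2.trans ?_
    rw [div_le_iff₀ hα0]
    rw [hXr] at hα
    calc (w : ℝ) + 1 ≤ y := hyw
      _ = y ^ (1 : ℝ) := (Real.rpow_one y).symm
      _ ≤ y ^ ((g₀ : ℝ) + J₁ * (ε - 5 / 12)) :=
          Real.rpow_le_rpow_of_exponent_le hy1.le (by nlinarith)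
      _ = y ^ g₀ * y ^ (J₁ * (ε - 5 / 12)) := by
          rw [Real.rpow_add (by linarith), Real.rpow_natCast]
      _ ≤ y ^ g₀ * α := by gcongr
  have hM := hM Z hZ hZy
  have hF := hF Z hZ hZy
  have hE := (tail (PP y J₁ (J₂ + 1)) (fun π hπ => by
    obtain ⟨l, e, hl, rfl, -, -⟩ := (hX.mem_PP y J₁ (J₂ + 1) π hy1).1 hπ
    exact (cp_facts l e hl).2) B Z w hw1 hZ (fun Z' a1 a2 => hU' Z' a1
      (le_trans (by exact_mod_cast a2) hZy))).trans hw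
  have hle : ∑ π ∈ PP y J₁ (J₂ + 1), ww Z π ≤
      ∑ π ∈ PP y J₁ (J₂ + 1) with (w : ℝ) * π.re < Z * |(π.im : ℝ)|, ww Z π +
      ∑ π ∈ PP y J₁ (J₂ + 1) with Thin π.re, ww Z π +
      ∑ π ∈ PP y J₁ (J₂ + 1) with ¬((w : ℝ) * π.re < Z * |(π.im : ℝ)|) ∧ ¬Thin π.re, ww Z π := by
    rw [sum_filter, sum_filter, sum_filter, ← sum_add_distrib, ← sum_add_distrib]
    refine sum_le_sum fun π _ => ?_
    have := ww0 Z π
    by_cases p1 : (w : ℝ) * π.re < Z * |(π.im : ℝ)| <;> by_cases p2 : Thin π.re <;>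
      simp only [p1, p2, if_true, if_false, not_true, not_false_eq_true, and_true, and_false,
        and_self] <;> linarith
  set G := (Ioc ⌊X⌋₊ ⌊X ^ (1 + ε)⌋₊).filter (fun p : ℕ => p.Prime ∧ ∃ q n b : ℕ, q.Prime ∧
      0 < b ∧ (b : ℝ) ≤ α * √(p : ℝ) ∧ ((1 < n ∧ p = (2 * q * n) ^ 2 + b ^ 2) ∨
        (1 ≤ n ∧ Even b ∧ p = ((2 * n + 1) * q) ^ 2 + b ^ 2))) with hG'
  have key : ∑ π ∈ PP y J₁ (J₂ + 1) with
      ¬((w : ℝ) * π.re < Z * |(π.im : ℝ)|) ∧ ¬Thin π.re, ww Z π ≤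
      ∑ t ∈ G ×ˢ (univ : Finset Bool), (Z : ℝ) * (1 / (t.1 : ℝ)) := by
    refine inj_le _ _ (fun π : GI => (nm π, decide (0 < π.im))) _ _ ?_ ?_ ?_ ?_
    · intro a ha b hb hab
      obtain ⟨l, e, hl, rfl, -, -⟩ :=
        (hX.mem_PP y J₁ (J₂ + 1) a hy1).1 (mem_filter.1 (mem_coe.1 ha)).1
      obtain ⟨l', e', hl', rfl, -, -⟩ :=
        (hX.mem_PP y J₁ (J₂ + 1) b hy1).1 (mem_filter.1 (mem_coe.1 hb)).1
      simp only [Prod.mk.injEq, decide_eq_decide, (cp_facts l e hl).1, (cp_facts l' e' hl').1] at hab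
      obtain ⟨rfl, hab⟩ := hab
      have a1 := (cp_facts l true hl).2.1
      cases e <;> cases e' <;>
        simp only [cp, Bool.false_eq_true, if_false, if_true, Zsqrtd.im_star] at hab a1 ⊢ <;> omega
    · intro π hπ
      obtain ⟨hπ, hnf, hnt⟩ := mem_filter.1 hπ
      obtain ⟨l, e, hl, rfl, l1, l2⟩ := (hX.mem_PP y J₁ (J₂ + 1) π hy1).1 hπ
      obtain ⟨h1, h3, h4⟩ := cp_facts l e hl
      have h5 := hG.2.2.1 (cp l e)
      rw [h1] at h5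
      simp only [mem_product, mem_univ, and_true, h1]
      set a := (cp l e).re
      set b := (cp l e).im
      have ha0 : 0 ≤ a := (abs_nonneg _).trans h4.le
      have eA : (a.natAbs : ℤ) = a := Int.natAbs_of_nonneg ha0
      have eB : (b.natAbs : ℤ) = |b| := Int.natCast_natAbs _
      have e0 : l = a.natAbs ^ 2 + b.natAbs ^ 2 := by
        have : (l : ℤ) = (a.natAbs : ℤ) ^ 2 + (b.natAbs : ℤ) ^ 2 := by rw [eA, eB, sq_abs, h5]
        exact_mod_cast this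
      have hB0 : 0 < b.natAbs := Int.natAbs_pos.2 h3
      obtain ⟨q, n, hq, hsh⟩ := shape l a.natAbs b.natAbs hl.2 e0 hB0 (by omega) fun q hq =>
        ⟨fun hh => hnt ⟨q, hq, Or.inl (by omega)⟩, fun hh => hnt ⟨q, hq, Or.inr (by omega)⟩⟩
      rw [hG', mem_filter, mem_Ioc]
      refine ⟨⟨?_, ?_⟩, hl.1, q, n, b.natAbs, hq, hB0, ?_, hsh⟩
      · rw [Nat.floor_lt (by linarith), ← hyX]
        exact l1
      · refine Nat.le_floor (l2.trans ?_)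
        rw [hXr, ← Real.rpow_natCast]
        refine Real.rpow_le_rpow_of_exponent_le hy1.le ?_
        push_cast
        nlinarith
      · have e4 : ((b.natAbs : ℕ) : ℝ) = |(b : ℝ)| := by rw [Nat.cast_natAbs, Int.cast_abs]
        have hl' : (l : ℝ) = (a : ℝ) ^ 2 + (b : ℝ) ^ 2 := by exact_mod_cast h5
        have ha0' : (0 : ℝ) ≤ a := by exact_mod_cast ha0
        have s1 : (a : ℝ) ≤ √(l : ℝ) := Real.le_sqrt_of_sq_le (by nlinarith [sq_nonneg (b : ℝ)])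
        rw [e4]
        rw [not_lt] at hnf
        rw [div_le_iff₀ hα0] at hZ1
        have hZ0 : (0 : ℝ) < Z := by exact_mod_cast hZ
        have s2 : (Z : ℝ) * |(b : ℝ)| ≤ Z * (α * a) := by nlinarith
        exact (le_of_mul_le_mul_left s2 hZ0).trans (by gcongr)
    · intro t _
      positivity
    · intro π hπ
      obtain ⟨l, e, hl, rfl, -, -⟩ := (hX.mem_PP y J₁ (J₂ + 1) π hy1).1 (mem_filter.1 hπ).1
      have ha : cp l e ≠ 0 := by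
        intro h0
        exact (cp_facts l e hl).2.1 (by rw [h0]; rfl)
      have hd : ‖dir (cp l e) ^ 4‖ = 1 := by rw [norm_pow, hA.norm_dir _ ha, one_pow]
      unfold ww
      rw [mul_one_div]
      exact div_le_div_of_nonneg_right (hK.le Z _ hd) (Nat.cast_nonneg _)
  have e5 : ∑ t ∈ G ×ˢ (univ : Finset Bool), (Z : ℝ) * (1 / (t.1 : ℝ)) =
      2 * Z * ∑ p ∈ G, 1 / (p : ℝ) := by
    rw [sum_product, mul_sum]
    refine sum_congr rfl fun a _ => ?_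
    simp only [sum_const, card_univ, Fintype.card_bool, nsmul_eq_mul]
    push_cast
    ring
  rw [e5] at key
  have hS0 : 0 ≤ ∑ p ∈ G, 1 / (p : ℝ) := sum_nonneg fun _ _ => by positivity
  have e6 : c / 3 ≤ 2 * ((w + 1) / α) * ∑ p ∈ G, 1 / (p : ℝ) := by
    have : 2 * Z * ∑ p ∈ G, 1 / (p : ℝ) ≤ 2 * ((w + 1) / α) * ∑ p ∈ G, 1 / (p : ℝ) := by gcongr
    linarith
  rw [div_mul_eq_mul_div, div_le_iff₀ (by positivity)]
  have e7 := mul_le_mul_of_nonneg_right e6 hα0.le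
  have e8 : 2 * ((w + 1) / α) * (∑ p ∈ G, 1 / (p : ℝ)) * α =
      2 * (w + 1) * ∑ p ∈ G, 1 / (p : ℝ) := by field_simp
  rw [e8] at e7
  linarith

end Pool.Agent.Lib.MP_4b1228_nt.GM
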