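import Pool.Agent.Lib.MP_4b1228_nt.GS.End

/-!
The weight of the primes far from the axis, without a logarithmic loss.
-/

namespace Pool.Agent.Lib.MP_4b1228_nt.GM

open Finset Topology Pool.Agent.Lib.MP_9d27bc_nt.C Pool.Agent.Lib.MP_4b1228_nt.GS
open Filter hiding ker
open Pool.Agent.Lib.MP_9d27bc_nt.C.Two hiding ww
open scoped Classical

theorem sum_id (M : ℕ) : ∑ i ∈ Icc 1 M, (i : ℝ) / 4 = M * (M + 1) / 8 := by
  induction M with
  | zero => simp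
  | succ M ih =>
    rw [sum_Icc_succ_top (by omega), ih]
    push_cast
    ring

theorem ker_avg (Z w : ℕ) (hw : 1 ≤ w) (hZ : w ≤ Z) (u : ℂ) (hu : ‖u‖ = 1)
    (hd : (w : ℝ) / Z ≤ ‖u - 1‖) :
    ker Z u ≤ 64 / Z * ∑ Z' ∈ Icc 1 (Z / w), ker Z' u + 4 / Z * ker 1 u := by
  have hw' : (1 : ℝ) ≤ w := by exact_mod_cast hw
  have hZ' : (w : ℝ) ≤ Z := by exact_mod_cast hZ
  have hZ0 : (0 : ℝ) < Z := by linarith
  have h1 := hK.decay Z u hu
  have h0 := hK.nonneg Z u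
  set d := ‖u - 1‖ with hdd
  have hd0 : 0 < d := lt_of_lt_of_le (by positivity) hd
  have k1 : ker 1 u = 1 := by simp [ker]
  have hs0 : 0 ≤ ∑ Z' ∈ Icc 1 (Z / w), ker Z' u := sum_nonneg fun _ _ => hK.nonneg _ _
  rw [k1]
  rcases le_or_gt d 1 with h | h
  · set M := ⌊1 / d⌋₊ with hM
    have hM1 : 1 ≤ M := Nat.le_floor (by rw [Nat.cast_one, le_div_iff₀ hd0]; linarith)
    have hM1' : (1 : ℝ) ≤ M := by exact_mod_cast hM1
    have hM2 : (M : ℝ) ≤ 1 / d := Nat.floor_le (by positivity)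
    have hM3 : 1 / d < M + 1 := Nat.lt_floor_add_one _
    have hM4 : M ≤ Z / w := by
      rw [Nat.le_div_iff_mul_le (by omega)]
      rw [le_div_iff₀ hd0] at hM2
      rw [div_le_iff₀ hZ0] at hd
      have : (M : ℝ) * w ≤ Z := by nlinarith
      exact_mod_cast this
    have h2 : (M : ℝ) * (M + 1) / 8 ≤ ∑ Z' ∈ Icc 1 (Z / w), ker Z' u := by
      rw [← sum_id]
      refine le_trans (sum_le_sum fun i hi => ?_) (sum_le_sum_of_subset_of_nonneg
        (Icc_subset_Icc_right hM4) fun _ _ _ => hK.nonneg _ _)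
      rw [mem_Icc] at hi
      refine hK.low i u hi.1 hu ?_
      have a1 : (1 : ℝ) ≤ i := by exact_mod_cast hi.1
      have a2 : (i : ℝ) ≤ M := by exact_mod_cast hi.2
      rw [le_div_iff₀ hd0] at hM2
      rw [le_div_iff₀ (by linarith)]
      nlinarith
    rw [div_lt_iff₀ hd0] at hM3
    have h3 : 1 ≤ ((M + 1) * d) ^ 2 := by nlinarith
    have h4 : 1 ≤ 2 * (M * (M + 1)) * d ^ 2 := by nlinarith [sq_nonneg d]
    have h5 : ker Z u * Z ≤ 8 * (M * (M + 1)) := by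
      have : 0 ≤ ker Z u * Z := mul_nonneg h0 hZ0.le
      have h6 : 0 ≤ 2 * ((M : ℝ) * (M + 1)) := by positivity
      nlinarith [mul_le_mul_of_nonneg_left h1 h6]
    have h7 : ker Z u ≤ 64 / Z * ((M : ℝ) * (M + 1) / 8) := by
      rw [div_mul_eq_mul_div, le_div_iff₀ hZ0]
      linarith
    have h8 := mul_le_mul_of_nonneg_left h2 (show (0 : ℝ) ≤ 64 / Z by positivity)
    have h9 : (0 : ℝ) ≤ 4 / Z * 1 := by positivity
    linarith
  · have h3 : ker Z u ≤ 4 / Z * 1 := by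
      rw [mul_one, le_div_iff₀ hZ0]
      have : 0 ≤ ker Z u * Z := mul_nonneg h0 hZ0.le
      have h4 : 1 ≤ d ^ 2 := by nlinarith
      nlinarith
    have h9 : (0 : ℝ) ≤ 64 / Z * ∑ Z' ∈ Icc 1 (Z / w), ker Z' u :=
      mul_nonneg (by positivity) hs0
    linarith

theorem ww0 (Z : ℕ) (a : GI) : 0 ≤ ww Z a := div_nonneg (hK.nonneg _ _) (Nat.cast_nonneg _)

theorem tail (S : Finset GI) (hS : ∀ π ∈ S, π.im ≠ 0 ∧ |π.im| < π.re) (B : ℝ) (Z w : ℕ)
    (hw : 1 ≤ w) (hZ : 1 ≤ Z) (hB : ∀ Z' : ℕ, 1 ≤ Z' → Z' ≤ Z → ∑ π ∈ S, ww Z' π ≤ B) :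
    ∑ π ∈ S with (w : ℝ) * π.re < Z * |(π.im : ℝ)|, ww Z π ≤ 68 * B / w := by
  have hw' : (1 : ℝ) ≤ w := by exact_mod_cast hw
  have hZ' : (1 : ℝ) ≤ Z := by exact_mod_cast hZ
  have hB0 : 0 ≤ B := (sum_nonneg fun _ _ => ww0 _ _).trans (hB 1 le_rfl hZ)
  rcases lt_or_ge Z w with hlt | hge
  · rw [filter_eq_empty_iff.2, sum_empty]
    · positivity
    · intro π hπ h
      have a1 : |(π.im : ℝ)| < π.re := by exact_mod_cast (hS π hπ).2
      have a2 : (Z : ℝ) < w := by exact_mod_cast hlt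
      nlinarith [abs_nonneg (π.im : ℝ)]
  have hge' : (w : ℝ) ≤ Z := by exact_mod_cast hge
  calc ∑ π ∈ S with (w : ℝ) * π.re < Z * |(π.im : ℝ)|, ww Z π
      ≤ ∑ π ∈ S with (w : ℝ) * π.re < Z * |(π.im : ℝ)|,
          (64 / Z * ∑ Z' ∈ Icc 1 (Z / w), ww Z' π + 4 / Z * ww 1 π) := by
        refine sum_le_sum fun π hπ => ?_
        rw [mem_filter] at hπ
        obtain ⟨a1, a2⟩ := hS π hπ.1
        have a3 := hπ.2
        have ha : π ≠ 0 := by
          rintro rfl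
          exact a1 rfl
        have hd : ‖dir π ^ 4‖ = 1 := by rw [norm_pow, hA.norm_dir π ha, one_pow]
        have a2' : |(π.im : ℝ)| < π.re := by exact_mod_cast a2
        have hN := End.nm_real π
        have hre : (0 : ℝ) < π.re := lt_of_le_of_lt (abs_nonneg _) a2'
        have hNp : 0 < (nm π : ℝ) := by rw [hN]; positivity
        have hsq : (π.im : ℝ) ^ 2 ≤ (π.re : ℝ) ^ 2 := by
          rw [← sq_abs (π.im : ℝ)]
          exact pow_le_pow_left₀ (abs_nonneg _) a2'.le 2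
        have h1 : (w : ℝ) / Z ≤ ‖dir π ^ 4 - 1‖ := by
          refine le_of_pow_le_pow_left₀ two_ne_zero (norm_nonneg _) ?_
          rw [End.dir_four π ha, div_pow, div_le_div_iff₀ (by positivity) (by positivity)]
          have b1 : ((w : ℝ) * π.re) ^ 2 ≤ (Z * |(π.im : ℝ)|) ^ 2 := by gcongr
          rw [mul_pow, mul_pow, sq_abs] at b1
          have b2 : (nm π : ℝ) ^ 2 ≤ (2 * (π.re : ℝ) ^ 2) ^ 2 := by
            gcongr
            linarith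
          calc (w : ℝ) ^ 2 * (nm π : ℝ) ^ 2 ≤ (w : ℝ) ^ 2 * (2 * (π.re : ℝ) ^ 2) ^ 2 := by gcongr
            _ = 4 * (π.re : ℝ) ^ 2 * ((w : ℝ) ^ 2 * (π.re : ℝ) ^ 2) := by ring
            _ ≤ 16 * (π.re : ℝ) ^ 2 * ((Z : ℝ) ^ 2 * (π.im : ℝ) ^ 2) := by gcongr; norm_num
            _ = _ := by ring
        have h2 := ker_avg Z w hw hge _ hd h1
        unfold ww
        rw [← sum_div, ← mul_div_assoc, ← mul_div_assoc, ← add_div]
        exact div_le_div_of_nonneg_right h2 hNp.le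
    _ ≤ ∑ π ∈ S, (64 / Z * ∑ Z' ∈ Icc 1 (Z / w), ww Z' π + 4 / Z * ww 1 π) := by
        refine sum_le_sum_of_subset_of_nonneg (filter_subset _ _) fun π _ _ => ?_
        exact add_nonneg (mul_nonneg (by positivity) (sum_nonneg fun _ _ => ww0 _ _))
          (mul_nonneg (by positivity) (ww0 1 π))
    _ = 64 / Z * ∑ Z' ∈ Icc 1 (Z / w), ∑ π ∈ S, ww Z' π + 4 / Z * ∑ π ∈ S, ww 1 π := by
        rw [sum_add_distrib, ← mul_sum, ← mul_sum, sum_comm]
    _ ≤ 64 / Z * (Z / w * B) + 4 / w * B := by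
        have b1 : ∑ Z' ∈ Icc 1 (Z / w), ∑ π ∈ S, ww Z' π ≤ Z / w * B := by
          calc _ ≤ ∑ _Z' ∈ Icc 1 (Z / w), B := sum_le_sum fun i hi =>
                hB i (mem_Icc.1 hi).1 ((mem_Icc.1 hi).2.trans (Nat.div_le_self _ _))
            _ = ((Z / w : ℕ) : ℝ) * B := by simp
            _ ≤ _ := mul_le_mul_of_nonneg_right Nat.cast_div_le hB0
        have b2 := hB 1 le_rfl hZ
        have b3 : 0 ≤ ∑ π ∈ S, ww 1 π := sum_nonneg fun _ _ => ww0 _ _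
        have b4 : (4 : ℝ) / Z ≤ 4 / w := by gcongr
        exact add_le_add (mul_le_mul_of_nonneg_left b1 (by positivity))
          (mul_le_mul b4 b2 b3 (by positivity))
    _ = 68 * B / w := by
        field_simp
        ring

theorem ub_PP (hX : Box) (hU : UBSt) : ∃ (c : ℕ) (C : ℝ), 0 < C ∧ ∀ J₁ J g₀ : ℕ,
    c + 2 * g₀ ≤ J₁ → 1 ≤ J₁ → J₁ ≤ J → ∀ᶠ y : ℝ in atTop, ∀ Z : ℕ, 1 ≤ Z → (Z : ℝ) ≤ y ^ g₀ →
      ∑ π ∈ PP y J₁ J, ww Z π ≤ C * (1 + J) := by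
  obtain ⟨c, C, hC, h⟩ := hU
  refine ⟨c, C, hC, fun J₁ J g₀ h1 h2 h3 => ?_⟩
  filter_upwards [h J, eventually_ge_atTop (3 : ℝ)] with y hy hy3 Z hZ hZy
  have hy1 : (1 : ℝ) < y := by linarith
  have hl : 1 ≤ Real.log y := by
    rw [Real.le_log_iff_exp_le (by linarith)]
    linarith [Real.exp_one_lt_d9]
  have a1 : y ^ c * (Z : ℝ) ^ 2 ≤ y ^ J₁ := by
    calc y ^ c * (Z : ℝ) ^ 2 ≤ y ^ c * (y ^ g₀) ^ 2 := by gcongr
      _ = y ^ (c + 2 * g₀) := by ring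
      _ ≤ y ^ J₁ := pow_le_pow_right₀ hy1.le h1
  have a2 := hy Z (y ^ J₁) (y ^ J) hZ a1 (pow_le_pow_right₀ hy1.le h3) le_rfl
  have a3 : ∑ π ∈ PP y J₁ J, ww Z π ≤ lay y Z (y ^ J₁) (y ^ J) := by
    refine sum_le_sum_of_subset_of_nonneg (fun π hπ => ?_) fun _ _ _ => ww0 _ _
    obtain ⟨l, ε, hl, rfl, l1, l2⟩ := (hX.mem_PP y J₁ J π hy1).1 hπ
    rw [mem_filter, hA.mem_disc, (End.cp_facts l ε hl).1]
    refine ⟨l2, l1.le, fun p hp hpl => ?_⟩
    rw [(Nat.prime_dvd_prime_iff_eq hp hl.1).1 hpl]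
    exact lt_of_le_of_lt (le_self_pow₀ hy1.le (by omega)) l1
  refine a3.trans (a2.trans ?_)
  rw [div_le_iff₀ (by linarith), Real.log_div (by positivity) (by positivity), Real.log_pow,
    Real.log_pow]
  have a4 : (0 : ℝ) ≤ J₁ * Real.log y := by positivity
  have a5 : 1 + (J * Real.log y - J₁ * Real.log y) ≤ (1 + J) * Real.log y := by nlinarith
  nlinarith

end Pool.Agent.Lib.MP_4b1228_nt.GM
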